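import Pool.Agent.Lib_helper63.TQ.Step

set_option autoImplicit false

namespace Pool.Agent.TQ

open Finset

/-- all sequences: bounded -/
def Bdd : Prop := ∃ C : ℝ, ∀ (k : ℕ) (a : ℕ → ℕ), Ad k a → R a k ≤ C

/-- tails are small -/
def Tails : Prop := ∀ ε : ℝ, 0 < ε → ∃ x : ℕ, ∀ (k : ℕ) (a : ℕ → ℕ), Ad k a →
  (∀ i, i < k → x < a i) → R a k ≤ ε

theorem Ad.shift {k : ℕ} {a : ℕ → ℕ} (h : Ad k a) (j : ℕ) : Ad (k - j) (fun i => a (j + i)) := by
  rcases le_or_gt k j with hj | hj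
  · rw [Nat.sub_eq_zero_of_le hj]
    exact ad_zero _
  have hS : ∀ n, S a (j + n) = S a j + S (fun i => a (j + i)) n := by
    intro n
    induction n with
    | zero => simp [S_zero]
    | succ n ih => rw [← add_assoc, S_succ, S_succ, ih]; ring
  refine ⟨fun i i' hi hi' => h.1 _ _ (by omega) (by omega), fun i hi => h.2.1 _ (by omega), ?_⟩
  intro u v u' v' h1 h2 h3 h4 h5
  have h6 := h.2.2 (j + u) (j + v) (j + u') (j + v') (by omega) (by omega) (by omega) (by omega)
    (by rw [hS, hS, hS, hS]; omega)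
  exact ⟨by omega, by omega⟩

theorem R_split (a : ℕ → ℕ) (j n : ℕ) :
    R a (j + n) = R a j + R (fun i => a (j + i)) n := by
  unfold R
  rw [sum_range_add]

theorem R_nonneg (a : ℕ → ℕ) (n : ℕ) : 0 ≤ R a n := by
  unfold R
  exact sum_nonneg fun i _ => by positivity

theorem R_le (a : ℕ → ℕ) (n : ℕ) : R a n ≤ n := by
  unfold R
  calc ∑ i ∈ range n, 1 / (a i : ℝ) ≤ ∑ _i ∈ range n, (1 : ℝ) := by
        refine sum_le_sum fun i _ => ?_
        rcases Nat.eq_zero_or_pos (a i) with h | h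
        · rw [h]; simp
        · rw [div_le_one (by exact_mod_cast h)]
          exact_mod_cast h
    _ = n := by simp

theorem lt_of_ad {k : ℕ} {a : ℕ → ℕ} (h : Ad k a) : ∀ i, i < k → i < a i := by
  intro i
  induction i with
  | zero => intro hi; exact h.2.1 0 hi
  | succ i ih =>
    intro hi
    have h1 := ih (by omega)
    have h2 := h.1 i (i + 1) (by omega) hi
    omega

theorem bdd_of_tails (h : Tails) : Bdd := by
  obtain ⟨x, hx⟩ := h 1 one_pos
  refine ⟨x + 1, fun k a ha => ?_⟩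
  rcases le_or_gt k x with hk | hk
  · have h1 := R_le a k
    have h2 : (k : ℝ) ≤ x := by exact_mod_cast hk
    linarith
  · have h1 := hx (k - x) (fun i => a (x + i)) (ha.shift x) (fun i hi => by
      have := lt_of_ad ha (x + i) (by omega)
      change x < a (x + i)
      omega)
    have h2 := R_split a x (k - x)
    rw [Nat.add_sub_cancel' hk.le] at h2
    have h3 := R_le a x
    linarith

theorem big_of_not_tails (h : ¬ Tails) : ∃ δ : ℝ, 0 < δ ∧ Big δ := by
  unfold Tails at h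
  push Not at h
  obtain ⟨ε, hε, hx⟩ := h
  refine ⟨ε, hε, fun x => ?_⟩
  obtain ⟨k, a, h1, h2, h3⟩ := hx x
  exact ⟨k, a, h1, h2, h3.le⟩

theorem tails_of_inf (h : ∀ a : ℕ → ℕ, AdInf a → ∃ C : ℝ, ∀ n, R a n ≤ C) : Tails := by
  by_contra hcon
  obtain ⟨δ, hδ, hB⟩ := big_of_not_tails hcon
  obtain ⟨a, ha, hR⟩ := exists_inf hδ hB
  obtain ⟨C, hC⟩ := h a ha
  obtain ⟨n, hn⟩ := exists_nat_gt (C / (δ / 2))
  obtain ⟨k, hk⟩ := hR n
  have h1 := hC k
  rw [div_lt_iff₀ (by positivity)] at hn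
  linarith

theorem inf_of_bdd (h : Bdd) : ∀ a : ℕ → ℕ, AdInf a → ∃ C : ℝ, ∀ n, R a n ≤ C := by
  obtain ⟨C, hC⟩ := h
  exact fun a ha => ⟨C, fun n => hC n a (ha n)⟩

theorem count_of_tails (h : Tails) (ε : ℝ) (hε : 0 < ε) :
    ∃ N : ℕ, ∀ n, N ≤ n → ∀ (k : ℕ) (a : ℕ → ℕ), Ad k a → (∀ i, i < k → a i ≤ n) →
      (k : ℝ) ≤ ε * n := by
  obtain ⟨x, hx⟩ := h (ε / 2) (by positivity)
  obtain ⟨N, hN⟩ := exists_nat_gt ((x : ℝ) / (ε / 2))
  refine ⟨N + 1, fun n hn k a ha hle => ?_⟩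
  have hn0 : (0 : ℝ) < n := by
    have : 0 < n := by omega
    exact_mod_cast this
  have hNn : (N : ℝ) ≤ n := by
    have : N ≤ n := by omega
    exact_mod_cast this
  have hxn : (x : ℝ) ≤ ε / 2 * n := by
    rw [div_lt_iff₀ (by positivity)] at hN
    nlinarith
  rcases le_or_gt k x with hk | hk
  · have h2 : (k : ℝ) ≤ x := by exact_mod_cast hk
    nlinarith
  · have h1 := hx (k - x) (fun i => a (x + i)) (ha.shift x) (fun i hi => by
      have := lt_of_ad ha (x + i) (by omega)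
      change x < a (x + i)
      omega)
    have h2 : ((k - x : ℕ) : ℝ) * (1 / n) ≤ R (fun i => a (x + i)) (k - x) := by
      unfold R
      calc ((k - x : ℕ) : ℝ) * (1 / n) = ∑ _i ∈ range (k - x), (1 / (n : ℝ)) := by
            rw [sum_const, card_range, nsmul_eq_mul]
        _ ≤ _ := by
          refine sum_le_sum fun i hi => ?_
          have hi' := mem_range.1 hi
          have h3 := hle (x + i) (by omega)
          have h4 := ha.2.1 (x + i) (by omega)
          exact one_div_le_one_div_of_le (by exact_mod_cast h4) (by exact_mod_cast h3)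
    have h3 : ((k - x : ℕ) : ℝ) ≤ ε / 2 * n := by
      have h4 := h2.trans h1
      rwa [mul_one_div, div_le_iff₀ hn0] at h4
    rw [Nat.cast_sub hk.le] at h3
    linarith

end Pool.Agent.TQ
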