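import Mathlib

set_option autoImplicit false

namespace Pool.Agent.TQ

open Finset

/-- prefix sums -/
def S (a : ℕ → ℕ) (n : ℕ) : ℕ := ∑ i ∈ range n, a i

/-- reciprocal sums -/
noncomputable def R (a : ℕ → ℕ) (n : ℕ) : ℝ := ∑ i ∈ range n, 1 / (a i : ℝ)

/-- admissible: the first `k` values of `a` -/
def Ad (k : ℕ) (a : ℕ → ℕ) : Prop :=
  (∀ i j, i < j → j < k → a i < a j) ∧ (∀ i, i < k → 0 < a i) ∧
    (∀ u v u' v', u < v → v ≤ k → u' < v' → v' ≤ k →
      S a v + S a u' = S a v' + S a u → u = u' ∧ v = v')

/-- the glued sequence `a, s, Q e` -/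
def glue (k : ℕ) (a : ℕ → ℕ) (s Q : ℕ) (e : ℕ → ℕ) : ℕ → ℕ := fun i =>
  if i < k then a i else if i = k then s else Q * e (i - (k + 1))

theorem S_zero (a : ℕ → ℕ) : S a 0 = 0 := by simp [S]

theorem S_succ (a : ℕ → ℕ) (n : ℕ) : S a (n + 1) = S a n + a n := by
  simp [S, sum_range_succ]

theorem S_mono (a : ℕ → ℕ) {m n : ℕ} (h : m ≤ n) : S a m ≤ S a n :=
  sum_le_sum_of_subset (range_mono h)

theorem S_congr {a b : ℕ → ℕ} {n : ℕ} (h : ∀ i, i < n → a i = b i) : S a n = S b n :=
  sum_congr rfl fun i hi => h i (mem_range.1 hi)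

theorem R_congr {a b : ℕ → ℕ} {n : ℕ} (h : ∀ i, i < n → a i = b i) : R a n = R b n :=
  sum_congr rfl fun i hi => by rw [h i (mem_range.1 hi)]

theorem S_lt {k : ℕ} {a : ℕ → ℕ} (hp : ∀ i, i < k → 0 < a i) {m n : ℕ} (h : m < n) (hn : n ≤ k) :
    S a m < S a n := by
  have h1 : S a (m + 1) ≤ S a n := S_mono a h
  rw [S_succ] at h1
  have := hp m (by omega)
  omega

theorem glue_lt {k : ℕ} {a : ℕ → ℕ} {s Q : ℕ} {e : ℕ → ℕ} {i : ℕ} (h : i < k) :
    glue k a s Q e i = a i := by simp [glue, h]

theorem glue_eq {k : ℕ} {a : ℕ → ℕ} {s Q : ℕ} {e : ℕ → ℕ} : glue k a s Q e k = s := by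
  simp [glue]

theorem glue_gt {k : ℕ} {a : ℕ → ℕ} {s Q : ℕ} {e : ℕ → ℕ} (j : ℕ) :
    glue k a s Q e (k + 1 + j) = Q * e j := by
  have h1 : ¬ (k + 1 + j < k) := by omega
  have h2 : ¬ (k + 1 + j = k) := by omega
  simp only [glue, if_neg h1, if_neg h2]
  congr 2
  omega

theorem S_glue_le {k : ℕ} {a : ℕ → ℕ} {s Q : ℕ} {e : ℕ → ℕ} {i : ℕ} (h : i ≤ k) :
    S (glue k a s Q e) i = S a i :=
  S_congr fun _ hj => glue_lt (lt_of_lt_of_le hj h)

theorem S_glue_gt {k : ℕ} {a : ℕ → ℕ} {s Q : ℕ} {e : ℕ → ℕ} (j : ℕ) :
    S (glue k a s Q e) (k + 1 + j) = S a k + s + Q * S e j := by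
  induction j with
  | zero => simp [S_succ, S_glue_le le_rfl, glue_eq, S_zero]
  | succ j ih =>
    rw [← add_assoc, S_succ, ih, glue_gt, S_succ]
    ring

theorem R_glue {k : ℕ} {a : ℕ → ℕ} {s Q : ℕ} {e : ℕ → ℕ} (l : ℕ) :
    R a k + (1 / (Q : ℝ)) * R e l ≤ R (glue k a s Q e) (k + 1 + l) := by
  induction l with
  | zero =>
    have h1 : R (glue k a s Q e) (k + 1) = R a k + 1 / (s : ℝ) := by
      unfold R
      rw [sum_range_succ, glue_eq]
      congr 1
      exact sum_congr rfl fun i hi => by rw [glue_lt (mem_range.1 hi)]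
    have h2 : R e 0 = 0 := by simp [R]
    rw [h2, add_zero, h1, mul_zero]
    have : (0 : ℝ) ≤ 1 / (s : ℝ) := by positivity
    linarith
  | succ l ih =>
    have h1 : R (glue k a s Q e) (k + 1 + (l + 1)) =
        R (glue k a s Q e) (k + 1 + l) + 1 / (((Q * e l : ℕ)) : ℝ) := by
      unfold R
      rw [← add_assoc, sum_range_succ, glue_gt]
    have h2 : R e (l + 1) = R e l + 1 / (e l : ℝ) := by
      unfold R
      rw [sum_range_succ]
    rw [h1, h2, mul_add]
    have h3 : (1 / (Q : ℝ)) * (1 / (e l : ℝ)) = 1 / (((Q * e l : ℕ)) : ℝ) := by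
      push_cast
      rw [one_div_mul_one_div]
    linarith

/-- the block types of the glued sequence -/
theorem ad_glue {k : ℕ} {a : ℕ → ℕ} {s Q : ℕ} {e : ℕ → ℕ} {l : ℕ} (ha : Ad k a) (he : Ad l e)
    (hs : S a k < s) (hd : ∀ u, u ≤ k → ¬ Q ∣ (S a k - S a u) + s)
    (hQ : s + S a k < Q * e 0) : Ad (k + 1 + l) (glue k a s Q e) := by
  obtain ⟨ha1, ha2, ha3⟩ := ha
  obtain ⟨he1, he2, he3⟩ := he
  have hQ0 : 0 < Q := by
    rcases Nat.eq_zero_or_pos Q with h | h
    · subst h; simp at hQ
    · exact h
  have hemin : ∀ i, i < l → e 0 ≤ e i := by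
    intro i hi
    rcases Nat.eq_zero_or_pos i with h | h
    · rw [h]
    · exact (he1 0 i h hi).le
  refine ⟨?_, ?_, ?_⟩
  · intro i j hij hj
    rcases lt_or_ge j k with h | h
    · rw [glue_lt h, glue_lt (hij.trans h)]
      exact ha1 i j hij h
    · rcases Nat.eq_or_lt_of_le h with h | h
      · rw [← h, glue_eq, glue_lt (by omega)]
        have h1 : S a (i + 1) ≤ S a k := S_mono a (by omega)
        rw [S_succ] at h1
        omega
      · obtain ⟨j', rfl⟩ := Nat.exists_eq_add_of_le (Nat.succ_le_of_lt h)
        change glue k a s Q e i < glue k a s Q e (k + 1 + j')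
        rw [glue_gt]
        have hj' : j' < l := by omega
        have h2 : Q * e 0 ≤ Q * e j' := Nat.mul_le_mul_left Q (hemin j' hj')
        rcases lt_trichotomy i k with h3 | h3 | h3
        · rw [glue_lt h3]
          have h1 : S a (i + 1) ≤ S a k := S_mono a (by omega)
          rw [S_succ] at h1
          omega
        · rw [h3, glue_eq]; omega
        · obtain ⟨i', rfl⟩ := Nat.exists_eq_add_of_le (Nat.succ_le_of_lt h3)
          change glue k a s Q e (k + 1 + i') < _
          rw [glue_gt]
          exact Nat.mul_lt_mul_of_pos_left (he1 i' j' (by omega) hj') hQ0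
  · intro i hi
    rcases lt_trichotomy i k with h3 | h3 | h3
    · rw [glue_lt h3]; exact ha2 i h3
    · rw [h3, glue_eq]; omega
    · obtain ⟨i', rfl⟩ := Nat.exists_eq_add_of_le (Nat.succ_le_of_lt h3)
      change 0 < glue k a s Q e (k + 1 + i')
      rw [glue_gt]
      exact Nat.mul_pos hQ0 (he2 i' (by omega))
  · -- distinctness
    have key : ∀ u v u' v', u < v → v ≤ k + 1 + l → u' < v' → v' ≤ k + 1 + l → v ≤ v' →
        S (glue k a s Q e) v + S (glue k a s Q e) u' = S (glue k a s Q e) v' + S (glue k a s Q e) u →
        u = u' ∧ v = v' := by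
      intro u v u' v' huv hv huv' hv' hvv' heq
      have hak : ∀ x, x ≤ k → S a x ≤ S a k := fun x hx => S_mono a hx
      have hE : ∀ i j, i < j → j ≤ l → S a k + s < Q * S e j - Q * S e i := by
        intro i j hij hj
        have h1 : S e (i + 1) ≤ S e j := S_mono e hij
        rw [S_succ] at h1
        have h2 : e 0 ≤ e i := hemin i (by omega)
        have h3 : Q * (S e i + e 0) ≤ Q * S e j := Nat.mul_le_mul_left Q (by omega)
        rw [mul_add] at h3
        omega
      rcases le_or_gt v' k with h1 | h1
      · rw [S_glue_le (by omega), S_glue_le (by omega), S_glue_le (by omega),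
          S_glue_le (by omega)] at heq
        exact ha3 u v u' v' huv (by omega) huv' h1 heq
      · obtain ⟨j', rfl⟩ := Nat.exists_eq_add_of_le (Nat.succ_le_of_lt h1)
        change S (glue k a s Q e) v + S (glue k a s Q e) u' =
          S (glue k a s Q e) (k + 1 + j') + S (glue k a s Q e) u at heq
        rw [S_glue_gt] at heq
        have hj' : j' ≤ l := by omega
        rcases le_or_gt u' k with h2 | h2
        · -- (u', v') of type (bd)
          rw [S_glue_le h2] at heq
          rcases le_or_gt v k with h3 | h3
          · -- type (a)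
            rw [S_glue_le h3, S_glue_le (by omega)] at heq
            exfalso
            have := hak v h3
            have := hak u' h2
            omega
          · obtain ⟨j, rfl⟩ := Nat.exists_eq_add_of_le (Nat.succ_le_of_lt h3)
            change S (glue k a s Q e) (k + 1 + j) + S a u' = _ at heq
            rw [S_glue_gt] at heq
            have hj : j ≤ l := by omega
            rcases le_or_gt u k with h4 | h4
            · rw [S_glue_le h4] at heq
              rcases Nat.lt_or_ge j j' with h5 | h5
              · exfalso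
                have h6 := hE j j' h5 hj'
                have h7 := hak u' h2
                have h8 := hak u h4
                omega
              · have h6 : j = j' := by
                  have : k + 1 + j ≤ k + 1 + j' := hvv'
                  omega
                subst h6
                have h7 : S a u' = S a u := by omega
                refine ⟨?_, rfl⟩
                rcases lt_trichotomy u u' with h8 | h8 | h8
                · have := S_lt ha2 h8 h2; omega
                · exact h8
                · have := S_lt ha2 h8 h4; omega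
            · obtain ⟨i, rfl⟩ := Nat.exists_eq_add_of_le (Nat.succ_le_of_lt h4)
              change _ = _ + S (glue k a s Q e) (k + 1 + i) at heq
              rw [S_glue_gt] at heq
              exfalso
              -- Q S e j - Q S e i = s + Q S e j' + (S a k - S a u')
              apply hd u' h2
              have h7 := hak u' h2
              have h8 : Q * S e j = Q * S e j' + Q * S e i + ((S a k - S a u') + s) := by omega
              have h9 : Q ∣ Q * S e j' + Q * S e i + ((S a k - S a u') + s) :=
                h8 ▸ Dvd.intro _ rfl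
              have h10 : Q ∣ Q * S e j' + Q * S e i :=
                Dvd.dvd.add (Dvd.intro _ rfl) (Dvd.intro _ rfl)
              exact (Nat.dvd_add_right h10).1 h9
        · -- (u', v') of type (c)
          obtain ⟨i', rfl⟩ := Nat.exists_eq_add_of_le (Nat.succ_le_of_lt h2)
          change _ + S (glue k a s Q e) (k + 1 + i') = _ at heq
          rw [S_glue_gt] at heq
          have hij' : i' < j' := by omega
          have h6 := hE i' j' hij' hj'
          rcases le_or_gt v k with h3 | h3
          · rw [S_glue_le h3, S_glue_le (by omega)] at heq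
            exfalso
            have := hak v h3
            omega
          · obtain ⟨j, rfl⟩ := Nat.exists_eq_add_of_le (Nat.succ_le_of_lt h3)
            change S (glue k a s Q e) (k + 1 + j) + _ = _ at heq
            rw [S_glue_gt] at heq
            have hj : j ≤ l := by omega
            rcases le_or_gt u k with h4 | h4
            · rw [S_glue_le h4] at heq
              exfalso
              apply hd u h4
              have h7 := hak u h4
              have h8 : Q * S e j' = Q * S e j + Q * S e i' + ((S a k - S a u) + s) := by omega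
              have h9 : Q ∣ Q * S e j + Q * S e i' + ((S a k - S a u) + s) :=
                h8 ▸ Dvd.intro _ rfl
              have h10 : Q ∣ Q * S e j + Q * S e i' :=
                Dvd.dvd.add (Dvd.intro _ rfl) (Dvd.intro _ rfl)
              exact (Nat.dvd_add_right h10).1 h9
            · obtain ⟨i, rfl⟩ := Nat.exists_eq_add_of_le (Nat.succ_le_of_lt h4)
              change _ = _ + S (glue k a s Q e) (k + 1 + i) at heq
              rw [S_glue_gt] at heq
              have h8 : Q * (S e j + S e i') = Q * (S e j' + S e i) := by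
                rw [mul_add, mul_add]; omega
              have h9 := Nat.eq_of_mul_eq_mul_left hQ0 h8
              have h10 := he3 i j i' j' (by omega) hj hij' hj' h9
              exact ⟨by omega, by omega⟩
    intro u v u' v' huv hv huv' hv' heq
    rcases le_total v v' with h | h
    · exact key u v u' v' huv hv huv' hv' h heq
    · have := key u' v' u v huv' hv' huv hv h heq.symm
      exact ⟨this.1.symm, this.2.symm⟩

end Pool.Agent.TQ
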