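import Pool.Agent.Lib_helper63.TQ.Glue

set_option autoImplicit false

namespace Pool.Agent.TQ

open Finset

/-- residues of the suffix sums -/
def T (k : ℕ) (a : ℕ → ℕ) (Q : ℕ) : Finset ℕ :=
  (range (k + 1)).image fun u => (S a k - S a u) % Q

theorem T_card (k : ℕ) (a : ℕ → ℕ) (Q : ℕ) : (T k a Q).card ≤ k + 1 := by
  unfold T
  exact card_image_le.trans (by rw [card_range])

theorem T_glue {k : ℕ} {a : ℕ → ℕ} {s Q : ℕ} {e : ℕ → ℕ} (l : ℕ) :
    T (k + 1 + l) (glue k a s Q e) Q ⊆ insert 0 ((T k a Q).image fun t => (t + s) % Q) := by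
  intro r hr
  unfold T at hr
  rw [mem_image] at hr
  obtain ⟨u, hu, rfl⟩ := hr
  rw [mem_range] at hu
  rw [S_glue_gt]
  rcases le_or_gt u k with h | h
  · rw [mem_insert]; right
    rw [mem_image]
    refine ⟨(S a k - S a u) % Q, ?_, ?_⟩
    · unfold T
      exact mem_image_of_mem _ (mem_range.2 (by omega))
    · rw [S_glue_le h]
      have h1 : S a u ≤ S a k := S_mono a h
      have h2 : S a k + s + Q * S e l - S a u = (S a k - S a u) + s + Q * S e l := by omega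
      change ((S a k - S a u) % Q + s) % Q = (S a k + s + Q * S e l - S a u) % Q
      rw [h2, Nat.add_mul_mod_self_left]
      simp [Nat.add_mod]
  · rw [mem_insert]; left
    obtain ⟨j, rfl⟩ := Nat.exists_eq_add_of_le (Nat.succ_le_of_lt h)
    change (S a k + s + Q * S e l - S (glue k a s Q e) (k + 1 + j)) % Q = 0
    rw [S_glue_gt]
    have h1 : S a k + s + Q * S e l - (S a k + s + Q * S e j) = Q * (S e l - S e j) := by
      rw [Nat.mul_sub]; omega
    rw [h1]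
    exact Nat.mul_mod_right _ _

theorem T_glue_card {k : ℕ} {a : ℕ → ℕ} {s Q : ℕ} {e : ℕ → ℕ} (l : ℕ) :
    (T (k + 1 + l) (glue k a s Q e) Q).card ≤ (T k a Q).card + 1 := by
  refine (card_le_card (T_glue l)).trans ((card_insert_le _ _).trans ?_)
  have := card_image_le (s := T k a Q) (f := fun t => (t + s) % Q)
  omega

/-- for every `x` there is an admissible sequence beyond `x` with reciprocal sum at least `δ` -/
def Big (δ : ℝ) : Prop :=
  ∀ x : ℕ, ∃ (l : ℕ) (e : ℕ → ℕ), Ad l e ∧ (∀ i, i < l → x < e i) ∧ δ ≤ R e l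

theorem step {δ : ℝ} (hδ : 0 < δ) (hB : Big δ) {k : ℕ} {a : ℕ → ℕ} (ha : Ad k a) {Q : ℕ}
    (hQ : 0 < Q) (hT : (T k a Q).card < Q) :
    ∃ (k' : ℕ) (a' : ℕ → ℕ), Ad k' a' ∧ k < k' ∧ (∀ i, i < k → a' i = a i) ∧
      R a k + δ / Q ≤ R a' k' ∧ (T k' a' Q).card ≤ (T k a Q).card + 1 := by
  -- a residue `r` with `- r` not in `T`
  obtain ⟨r, hr, hrT⟩ : ∃ r ∈ range Q, r ∉ T k a Q := by
    by_contra hcon
    push Not at hcon
    have : (range Q).card ≤ (T k a Q).card := card_le_card hcon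
    rw [card_range] at this
    omega
  rw [mem_range] at hr
  -- choose s = Q * (S a k + 1) + (Q - r)
  set s : ℕ := Q * (S a k + 1) + (Q - r) with hs
  have hs1 : S a k < s := by
    have : S a k + 1 ≤ Q * (S a k + 1) := Nat.le_mul_of_pos_left _ hQ
    omega
  obtain ⟨l, e, he, hx, hRe⟩ := hB (s + S a k)
  have hl : 0 < l := by
    rcases Nat.eq_zero_or_pos l with h | h
    · subst h
      simp [R] at hRe
      linarith
    · exact h
  have he0 := hx 0 hl
  have hQe : s + S a k < Q * e 0 := lt_of_lt_of_le he0 (Nat.le_mul_of_pos_left _ hQ)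
  have hd : ∀ u, u ≤ k → ¬ Q ∣ (S a k - S a u) + s := by
    intro u hu hdiv
    apply hrT
    unfold T
    rw [mem_image]
    refine ⟨u, mem_range.2 (by omega), ?_⟩
    have h1 : (S a k - S a u) + s = (S a k - S a u) + (Q - r) + Q * (S a k + 1) := by omega
    rw [h1] at hdiv
    have h2 : Q ∣ (S a k - S a u) + (Q - r) :=
      (Nat.dvd_add_left (Dvd.intro _ rfl)).1 hdiv
    obtain ⟨m, hm⟩ := h2
    have hm0 : m ≠ 0 := by
      rintro rfl
      rw [mul_zero] at hm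
      omega
    obtain ⟨m', rfl⟩ := Nat.exists_eq_succ_of_ne_zero hm0
    have h3 : S a k - S a u = Q * m' + r := by
      have : Q * (m'.succ) = Q * m' + Q := by rw [Nat.mul_succ]
      omega
    change (S a k - S a u) % Q = r
    rw [h3, Nat.mul_add_mod_self_left, Nat.mod_eq_of_lt hr]
  refine ⟨k + 1 + l, glue k a s Q e, ad_glue ha he hs1 hd hQe, by omega,
    fun i hi => glue_lt hi, ?_, T_glue_card l⟩
  have h1 := R_glue (k := k) (a := a) (s := s) (Q := Q) (e := e) l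
  have h2 : δ / Q ≤ (1 / (Q : ℝ)) * R e l := by
    rw [div_eq_mul_one_div, mul_comm]
    exact mul_le_mul_of_nonneg_left hRe (by positivity)
  linarith

theorem steps {δ : ℝ} (hδ : 0 < δ) (hB : Big δ) {Q : ℕ} (hQ : 0 < Q) (m : ℕ) :
    ∀ {k : ℕ} {a : ℕ → ℕ}, Ad k a → (T k a Q).card + m ≤ Q →
    ∃ (k' : ℕ) (a' : ℕ → ℕ), Ad k' a' ∧ k + m ≤ k' ∧ (∀ i, i < k → a' i = a i) ∧
      R a k + m * (δ / Q) ≤ R a' k' := by
  induction m with
  | zero =>
    intro k a ha _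
    exact ⟨k, a, ha, le_rfl, fun _ _ => rfl, by simp⟩
  | succ m ih =>
    intro k a ha hT
    obtain ⟨k1, a1, h1, h2, h3, h4, h5⟩ := step hδ hB ha hQ (by omega)
    obtain ⟨k2, a2, g1, g2, g3, g4⟩ := ih h1 (by omega)
    refine ⟨k2, a2, g1, by omega, fun i hi => ?_, ?_⟩
    · rw [g3 i (by omega), h3 i hi]
    · push_cast
      linarith

theorem grow {δ : ℝ} (hδ : 0 < δ) (hB : Big δ) {k : ℕ} {a : ℕ → ℕ} (ha : Ad k a) :
    ∃ (k' : ℕ) (a' : ℕ → ℕ), Ad k' a' ∧ k < k' ∧ (∀ i, i < k → a' i = a i) ∧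
      R a k + δ / 2 ≤ R a' k' := by
  have hT := T_card k a (2 * (k + 1))
  obtain ⟨k', a', h1, h2, h3, h4⟩ := steps hδ hB (Q := 2 * (k + 1)) (by omega) (k + 1) ha
    (by omega)
  refine ⟨k', a', h1, by omega, h3, ?_⟩
  have : ((k + 1 : ℕ) : ℝ) * (δ / ((2 * (k + 1) : ℕ) : ℝ)) = δ / 2 := by
    push_cast
    have : ((k : ℝ) + 1) ≠ 0 := by positivity
    field_simp
  rw [this] at h4
  exact h4

/-- infinite admissible sequences -/
def AdInf (a : ℕ → ℕ) : Prop := ∀ k, Ad k a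

theorem Ad.mono {k k' : ℕ} {a : ℕ → ℕ} (h : Ad k a) (hk : k' ≤ k) : Ad k' a :=
  ⟨fun i j hij hj => h.1 i j hij (by omega), fun i hi => h.2.1 i (by omega),
    fun u v u' v' h1 h2 h3 h4 h5 => h.2.2 u v u' v' h1 (by omega) h3 (by omega) h5⟩

theorem Ad.congr {k : ℕ} {a b : ℕ → ℕ} (h : Ad k a) (hab : ∀ i, i < k → b i = a i) : Ad k b := by
  refine ⟨fun i j hij hj => ?_, fun i hi => ?_, fun u v u' v' h1 h2 h3 h4 h5 => ?_⟩
  · rw [hab i (by omega), hab j hj]; exact h.1 i j hij hj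
  · rw [hab i hi]; exact h.2.1 i hi
  · have hc : ∀ n, n ≤ k → S b n = S a n := fun n hn => S_congr fun i hi => hab i (by omega)
    rw [hc v h2, hc u' (by omega), hc v' h4, hc u (by omega)] at h5
    exact h.2.2 u v u' v' h1 h2 h3 h4 h5

theorem ad_zero (a : ℕ → ℕ) : Ad 0 a :=
  ⟨fun i j _ hj => by omega, fun i hi => by omega, fun u v u' v' h1 h2 _ _ _ => by omega⟩

/-- the infinite sequence -/
theorem exists_inf {δ : ℝ} (hδ : 0 < δ) (hB : Big δ) :
    ∃ a : ℕ → ℕ, AdInf a ∧ ∀ n : ℕ, ∃ k, (n : ℝ) * (δ / 2) ≤ R a k := by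
  -- states
  let St := { p : ℕ × (ℕ → ℕ) // Ad p.1 p.2 }
  have hex : ∀ p : St, ∃ q : St, p.1.1 < q.1.1 ∧ (∀ i, i < p.1.1 → q.1.2 i = p.1.2 i) ∧
      R p.1.2 p.1.1 + δ / 2 ≤ R q.1.2 q.1.1 := by
    rintro ⟨⟨k, a⟩, ha⟩
    obtain ⟨k', a', h1, h2, h3, h4⟩ := grow hδ hB ha
    exact ⟨⟨⟨k', a'⟩, h1⟩, h2, h3, h4⟩
  choose nx hnx1 hnx2 hnx3 using hex
  let f : ℕ → St := fun n => Nat.rec (motive := fun _ => St) ⟨⟨0, fun _ => 0⟩, ad_zero _⟩
    (fun _ p => nx p) n
  have hf : ∀ n, f (n + 1) = nx (f n) := fun n => rfl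
  have hk : ∀ n, n ≤ (f n).1.1 := by
    intro n
    induction n with
    | zero => exact Nat.zero_le _
    | succ n ih =>
      have := hnx1 (f n)
      rw [hf]
      omega
  have hmono : ∀ m n, m ≤ n → (f m).1.1 ≤ (f n).1.1 ∧
      ∀ i, i < (f m).1.1 → (f n).1.2 i = (f m).1.2 i := by
    intro m n hmn
    induction n, hmn using Nat.le_induction with
    | base => exact ⟨le_rfl, fun _ _ => rfl⟩
    | succ n hmn ih =>
      have h1 := hnx1 (f n)
      have h2 := hnx2 (f n)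
      rw [hf]
      refine ⟨by omega, fun i hi => ?_⟩
      rw [h2 i (by omega), ih.2 i hi]
  let L : ℕ → ℕ := fun i => (f (i + 1)).1.2 i
  have hL : ∀ n i, i < (f n).1.1 → L i = (f n).1.2 i := by
    intro n i hi
    rcases le_total n (i + 1) with h | h
    · exact (hmono n (i + 1) h).2 i hi
    · have h1 : i < (f (i + 1)).1.1 := by
        have := hk (i + 1)
        omega
      exact ((hmono (i + 1) n h).2 i h1).symm
  refine ⟨L, fun k => ?_, fun n => ⟨(f n).1.1, ?_⟩⟩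
  · exact ((f k).2.congr (hL k)).mono (hk k)
  · rw [R_congr (hL n)]
    induction n with
    | zero => simp [R, f]
    | succ n ih =>
      have := hnx3 (f n)
      rw [hf]
      push_cast
      linarith

end Pool.Agent.TQ
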